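import Mathlib
import Pool.Agent.helper85.PG.Spec
import Pool.Agent.helper85.PG.Basic

/-!
# Small doubling and the Paley graph conjecture: module SUB (restriction to a subspace)
-/

set_option autoImplicit false

namespace Pool.Agent.helper85.PG

open Module

theorem SUB : SUB_stmt := by
  intro p _ E _ _ _ G d l W hFB hd hW hball
  let f : W × ZMod p →+ E × ZMod p :=
    { toFun := fun z => ((z.1 : E), z.2)
      map_zero' := rfl
      map_add' := fun z z' => rfl }
  have hf : ∀ z, z ∈ G.comap f ↔ ((z.1 : E), z.2) ∈ G := fun z => Iff.rfl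
  refine ⟨fun R => PP (G.comap f) R, ⟨W, inferInstance, inferInstance, G.comap f, inferInstance,
    ?_, fun R => ?_, fun R => rfl⟩, ?_⟩
  · have h1 : finrank ℝ W < finrank ℝ E := Submodule.finrank_lt hW
    omega
  · refine Set.Finite.of_finite_image (f := f) ((hFB R).subset ?_) ?_
    · rintro _ ⟨z, hz, rfl⟩
      exact ⟨(hf z).1 hz.1, hz.2⟩
    · rintro ⟨x, y⟩ _ ⟨x', y'⟩ _ hxy
      have h := Prod.mk.inj hxy
      exact Prod.ext (Subtype.ext h.1) h.2
  · ext y
    rw [mem_PP, mem_PP]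
    constructor
    · rintro ⟨x, hx, hxR⟩
      exact ⟨x, (hf _).1 hx, hxR⟩
    · rintro ⟨x, hx, hxR⟩
      have hxW : x ∈ W := hball (x, y) ⟨hx, hxR⟩
      exact ⟨⟨x, hxW⟩, (hf _).2 hx, hxR⟩

end Pool.Agent.helper85.PG
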